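import Mathlib
import Pool.Agent.H.MP_78c86a_lc.D

namespace Pool.Agent.Results.MP_78c86a_lc.Main

open MeasureTheory Pool.Agent.H.MP_1b52a3_lc Pool.Agent.H.MP_78c86a_lc

/-- ergodic transformations of the unit interval, with the weak topology -/
abbrev EMPT : Type := {S : Aut (volume : Measure unitInterval) // Ergodic S.1 volume}

theorem result : ¬ ∃ B : Set (EMPT × EMPT), MeasurableSet[borel (EMPT × EMPT)] B ∧
    ∀ S T : EMPT, MDistal volume S.1.1 → MDistal volume T.1.1 →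
      ((S, T) ∈ B ↔ ConjA volume S.1 T.1) := by
  rintro ⟨B, hB, h⟩
  obtain ⟨T, A, hA, c, e, d, k⟩ := mainM
  letI : MeasurableSpace (EMPT × EMPT) := borel _
  haveI : BorelSpace (EMPT × EMPT) := ⟨rfl⟩
  have m : Continuous fun y => ((⟨T 0 y, e 0 y⟩, ⟨T 1 y, e 1 y⟩) : EMPT × EMPT) :=
    ((c 0).subtype_mk _).prodMk ((c 1).subtype_mk _)
  refine hA ?_
  convert m.measurable hB using 1
  ext y
  exact (k y).symm.trans (h ⟨_, e 0 y⟩ ⟨_, e 1 y⟩ (d 0 y) (d 1 y)).symm

end Pool.Agent.Results.MP_78c86a_lc.Main
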